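import Pool.Agent.Q206.Gam.Final

set_option autoImplicit false

/-!
# Agreement density 1/2 is attained below sets of Gamma-value 1/2 (MP_f1effe_lc)

Idea. Let `Y ≤_T X`. Split `ℕ` into dyadic windows and these into short blocks. In window `i` use
a code (Reed–Solomon code concatenated with Hadamard codes) with `(F i) ^ (2 ^ (i + 1))` messages
whose words are almost orthogonal, `F i = 2 ^ 4 ^ 2 ^ (i + 1)`. For each block at most few
codewords agree with `Y` on a proportion of the block far from `1/2`; so there are at most `4 ^ i`
bad messages in window `i`, and the list of the bad messages is computable from `Y`. If some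
computable sequence of messages is bad only in finitely many windows, the set of the codewords of
these messages agrees with `Y` with density exactly `1/2`. Otherwise the two-step frequency trick
(`Q206.Ioe.lemmaA`) gives a function `u ≤_T Y` which is infinitely often equal to every computable
function bounded by `2 ^ 4 ^ n`, and writing the complement of the binary word of `u n` on an
interval of length `4 ^ n` gives a set `Z ≤_T X` with `γ(Z) ≤ 1/4`.
-/

namespace Pool.Agent.Results.MP_f1effe_lc.HalfAttained

open Q206.Gam

/-- For every set `X` with `Γ(X) > 1/4`, in particular for `Γ(X) = 1/2`, and every `Y ≤_T X`, there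
is a computable set `A` such that the set of the arguments on which `Y` and `A` agree has
asymptotic density `1/2`; in particular its lower density is `1/2`. -/
theorem result :
    (∀ X : Set ℕ, GammaVal X = 1 / 2 → ∀ Y : Set ℕ, SetLE Y X →
      ∃ A : Set ℕ, ComputablePred (fun n => n ∈ A) ∧ lowerDensity (agree Y A) = 1 / 2) ∧
    (∀ X : Set ℕ, 1 / 4 < GammaVal X → ∀ Y : Set ℕ, SetLE Y X →
      ∃ A : Set ℕ, ComputablePred (fun n => n ∈ A) ∧ HasDensity (agree Y A) (1 / 2) ∧
        lowerDensity (agree Y A) = 1 / 2) := by
  constructor
  · intro X hX Y hYX
    obtain ⟨A, hA, hd⟩ := exists_half_of_Gamma (X := X) (by rw [hX]; norm_num) hYX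
    exact ⟨A, hA, hd.lowerDensity_eq⟩
  · intro X hX Y hYX
    obtain ⟨A, hA, hd⟩ := exists_half_of_Gamma hX hYX
    exact ⟨A, hA, hd, hd.lowerDensity_eq⟩

end Pool.Agent.Results.MP_f1effe_lc.HalfAttained
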